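import Mathlib

set_option autoImplicit false
open Pointwise Set

namespace Pool.Agent.H.MP_b3a091_al

universe u v

/-- Products of elements of `A` and `B` have unique representations. -/
def Inj {G : Type u} [Group G] (A B : Set G) : Prop :=
  ∀ a ∈ A, ∀ b ∈ B, ∀ a' ∈ A, ∀ b' ∈ B, a * b = a' * b' → a = a' ∧ b = b'

/-- The group has an exact factorization into two infinite subsets. -/
def Fac (G : Type u) [Group G] : Prop :=
  ∃ A B : Set G, A.Infinite ∧ B.Infinite ∧ Inj A B ∧ ∀ g, g ∈ A * B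

theorem infinite_iUnion_of_strictMono {α : Type u} (A : ℕ → Set α) (h : StrictMono A) :
    (⋃ n, A n).Infinite := by
  intro hfin
  exact Set.infinite_of_injective_forall_mem h.injective
    (fun n => (subset_iUnion A n : A n ∈ {s | s ⊆ ⋃ n, A n})) hfin.finite_subsets

theorem fac_of_step {G : Type u} [Group G] [Countable G] (Inv : Set G → Set G → Prop)
    (A0 B0 : Set G) (h0 : Inv A0 B0) (hinj : ∀ A B, Inv A B → Inj A B)
    (step : ∀ A B g, Inv A B → ∃ A' B', Inv A' B' ∧ A ⊂ A' ∧ B ⊂ B' ∧ g ∈ A' * B') :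
    Fac G := by
  obtain ⟨e, he⟩ := exists_surjective_nat G
  choose fA fB hf using step
  let s : ℕ → {p : Set G × Set G // Inv p.1 p.2} := fun n =>
    Nat.rec ⟨(A0, B0), h0⟩
      (fun n p => ⟨(fA p.1.1 p.1.2 (e n) p.2, fB p.1.1 p.1.2 (e n) p.2), (hf _ _ _ p.2).1⟩) n
  have hA : StrictMono (fun n => (s n).1.1) :=
    strictMono_nat_of_lt_succ fun n => (hf _ _ (e n) (s n).2).2.1
  have hB : StrictMono (fun n => (s n).1.2) :=
    strictMono_nat_of_lt_succ fun n => (hf _ _ (e n) (s n).2).2.2.1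
  refine ⟨⋃ n, (s n).1.1, ⋃ n, (s n).1.2, infinite_iUnion_of_strictMono _ hA,
    infinite_iUnion_of_strictMono _ hB, ?_, fun g => ?_⟩
  · intro a ha b hb a' ha' b' hb' h
    obtain ⟨n1, h1⟩ := mem_iUnion.1 ha
    obtain ⟨n2, h2⟩ := mem_iUnion.1 hb
    obtain ⟨n3, h3⟩ := mem_iUnion.1 ha'
    obtain ⟨n4, h4⟩ := mem_iUnion.1 hb'
    exact hinj _ _ (s (n1 + n2 + n3 + n4)).2 a (hA.monotone (by omega) h1)
      b (hB.monotone (by omega) h2) a' (hA.monotone (by omega) h3)
      b' (hB.monotone (by omega) h4) h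
  · obtain ⟨n, rfl⟩ := he g
    exact mul_subset_mul (subset_iUnion (fun n => (s n).1.1) (n + 1))
      (subset_iUnion (fun n => (s n).1.2) (n + 1)) (hf _ _ (e n) (s n).2).2.2.2

theorem fac_of_injective {G : Type u} {H : Type v} [Group G] [Group H] (f : H →* G)
    (hf : Function.Injective f) (h : Fac H) : Fac G := by
  obtain ⟨A, B, hA, hB, hinj, hall⟩ := h
  obtain ⟨T, hT, h1⟩ := Subgroup.exists_isComplement_left f.range 1
  refine ⟨T * f '' A, f '' B, ?_, hB.image hf.injOn, ?_, fun g => ?_⟩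
  · exact (hA.image hf.injOn).mono (fun x hx => ⟨1, h1, x, hx, by simp⟩)
  · rintro _ ⟨t, ht, _, ⟨a, ha, rfl⟩, rfl⟩ _ ⟨b, hb, rfl⟩ _ ⟨t', ht', _, ⟨a', ha', rfl⟩, rfl⟩
      _ ⟨b', hb', rfl⟩ h
    have h2 := hT.1 (a₁ := (⟨t, ht⟩, ⟨f (a * b), ⟨_, rfl⟩⟩))
      (a₂ := (⟨t', ht'⟩, ⟨f (a' * b'), ⟨_, rfl⟩⟩)) (by simpa [mul_assoc] using h)
    simp only [Prod.mk.injEq, Subtype.mk.injEq] at h2
    obtain ⟨h3, h4⟩ := hinj a ha b hb a' ha' b' hb' (hf h2.2)
    simp [h2.1, h3, h4]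
  · obtain ⟨⟨⟨t, ht⟩, ⟨_, ⟨x, rfl⟩⟩⟩, rfl⟩ := hT.2 g
    obtain ⟨a, ha, b, hb, rfl⟩ := hall x
    exact ⟨t * f a, ⟨t, ht, f a, ⟨a, ha, rfl⟩, rfl⟩, f b, ⟨b, hb, rfl⟩, by simp [mul_assoc]⟩

theorem fac_of_surjective {G : Type u} {Q : Type v} [Group G] [Group Q] (f : G →* Q)
    (hf : Function.Surjective f) (h : Fac Q) : Fac G := by
  obtain ⟨A, B, hA, hB, hinj, hall⟩ := h
  obtain ⟨s, hs⟩ := hf.hasRightInverse
  refine ⟨s '' A, f ⁻¹' B, hA.image hs.injective.injOn, hB.preimage (by simp [hf.range_eq]),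
    ?_, fun g => ?_⟩
  · rintro _ ⟨a, ha, rfl⟩ b hb _ ⟨a', ha', rfl⟩ b' hb' h
    have h2 := congrArg f h
    rw [map_mul, map_mul, hs, hs] at h2
    obtain ⟨rfl, -⟩ := hinj a ha _ hb a' ha' _ hb' h2
    exact ⟨rfl, mul_left_cancel h⟩
  · obtain ⟨a, ha, b, hb, hab⟩ := hall (f g)
    refine ⟨s a, ⟨a, ha, rfl⟩, (s a)⁻¹ * g, ?_, by simp⟩
    simp only at hab
    rw [mem_preimage, map_mul, map_inv, hs, ← hab]
    simpa using hb

/-- Finitely many equations `x u x = v` with `u v ≠ 1` never cover a cofinite set. -/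
def Good (G : Type u) [Group G] : Prop :=
  ∀ (P : Set (G × G)) (E : Set G), P.Finite → E.Finite → (∀ p ∈ P, p.1 * p.2 ≠ 1) →
    ∃ x, x ∉ E ∧ ∀ p ∈ P, x * p.1 * x ≠ p.2

theorem fac_of_good {G : Type u} [Group G] [Countable G] [Infinite G] (hG : Good G) : Fac G := by
  refine fac_of_step (fun A B => A.Finite ∧ B.Finite ∧ Inj A B) ∅ ∅
    ⟨finite_empty, finite_empty, fun a ha => absurd ha (notMem_empty a)⟩
    (fun _ _ h => h.2.2) ?_
  have key : ∀ A B : Set G, ∀ g, A.Finite → B.Finite → Inj A B → g ∉ A * B →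
      ∃ x y, x ∉ A ∧ y ∉ B ∧ x * y = g ∧ Inj (insert x A) (insert y B) := by
    intro A B g hA hB hinj hg
    obtain ⟨x, hx1, hx2⟩ := hG ((fun p : G × G => (p.2 * g⁻¹, p.1)) '' (A ×ˢ B))
      (A ∪ ({g} * B⁻¹) ∪ (A * B * B⁻¹) ∪ ({g} * (B⁻¹ * A⁻¹ * A))) ((hA.prod hB).image _)
      (((hA.union ((finite_singleton g).mul hB.inv)).union ((hA.mul hB).mul hB.inv)).union
        ((finite_singleton g).mul ((hB.inv.mul hA.inv).mul hA)))
      (by
        rintro _ ⟨⟨a, b⟩, ⟨ha, hb⟩, rfl⟩ h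
        apply hg
        refine ⟨a, ha, b, hb, ?_⟩
        simp only at h ⊢
        calc a * b = g * (g⁻¹ * a * (b * g⁻¹ * a)⁻¹ * b) := by rw [h]; group
          _ = g := by group)
    simp only [mem_union, not_or] at hx1
    obtain ⟨⟨⟨h1, h2⟩, h3⟩, h4⟩ := hx1
    have h2' : x⁻¹ * g ∉ B := fun h =>
      h2 ⟨g, rfl, (x⁻¹ * g)⁻¹, by simpa using h, by simp⟩
    have h3' : ∀ b ∈ B, ∀ a' ∈ A, ∀ b' ∈ B, x * b ≠ a' * b' := fun b hb a' ha' b' hb' h =>
      h3 ⟨a' * b', mul_mem_mul ha' hb', b⁻¹, by simpa using hb, by simp [← h]⟩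
    have h4' : ∀ a ∈ A, ∀ a' ∈ A, ∀ b' ∈ B, a * (x⁻¹ * g) ≠ a' * b' :=
      fun a ha a' ha' b' hb' h =>
      h4 ⟨g, rfl, b'⁻¹ * a'⁻¹ * a,
        mul_mem_mul (mul_mem_mul (by simpa using hb') (by simpa using ha')) ha, by
          simp only
          rw [← mul_inv_rev, ← h]; group⟩
    have h5 : ∀ a ∈ A, ∀ b ∈ B, x * b ≠ a * (x⁻¹ * g) := fun a ha b hb h =>
      hx2 _ ⟨(a, b), ⟨ha, hb⟩, rfl⟩ (by
        simp only
        rw [← mul_assoc, h]; group)
    refine ⟨x, x⁻¹ * g, h1, h2', by simp, ?_⟩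
    rintro a (rfl | ha) b (rfl | hb) a' (rfl | ha') b' (rfl | hb') h
    · exact ⟨rfl, rfl⟩
    · exact ⟨rfl, mul_left_cancel h⟩
    · exact ⟨mul_right_cancel h, rfl⟩
    · exact absurd ⟨a', ha', b', hb', by simpa using h.symm⟩ hg
    · exact ⟨rfl, mul_left_cancel h⟩
    · exact ⟨rfl, mul_left_cancel h⟩
    · exact absurd h (h5 _ ha' _ hb)
    · exact absurd h (h3' _ hb _ ha' _ hb')
    · exact ⟨mul_right_cancel h, rfl⟩
    · exact absurd h.symm (h5 _ ha _ hb')
    · exact ⟨mul_right_cancel h, rfl⟩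
    · exact absurd h (h4' _ ha _ ha' _ hb')
    · exact absurd ⟨a, ha, b, hb, by simpa using h⟩ hg
    · exact absurd h.symm (h3' _ hb' _ ha _ hb)
    · exact absurd h.symm (h4' _ ha' _ ha _ hb)
    · exact hinj _ ha _ hb _ ha' _ hb' h
  rintro A B g ⟨hA, hB, hinj⟩
  by_cases hg : g ∈ A * B
  · obtain ⟨g', hg'⟩ := (hA.mul hB).infinite_compl.nonempty
    obtain ⟨x, y, hx, hy, -, h⟩ := key A B g' hA hB hinj hg'
    exact ⟨_, _, ⟨hA.insert x, hB.insert y, h⟩, ssubset_insert hx, ssubset_insert hy,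
      mul_subset_mul (subset_insert _ _) (subset_insert _ _) hg⟩
  · obtain ⟨x, y, hx, hy, hxy, h⟩ := key A B g hA hB hinj hg
    exact ⟨_, _, ⟨hA.insert x, hB.insert y, h⟩, ssubset_insert hx, ssubset_insert hy,
      x, mem_insert _ _, y, mem_insert _ _, hxy⟩

theorem good_int : Good (Multiplicative ℤ) := by
  intro P E hP hE _
  have h1 : (⋃ p ∈ P, {x : Multiplicative ℤ | x * p.1 * x = p.2}).Finite := by
    refine hP.biUnion fun p _ => Set.Subsingleton.finite ?_
    intro x hx y hy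
    have h2 := congrArg Multiplicative.toAdd (Eq.trans hx (Eq.symm hy))
    simp only [toAdd_mul] at h2
    exact Multiplicative.toAdd.injective (by omega)
  obtain ⟨x, hx⟩ := (hE.union h1).infinite_compl.nonempty
  simp only [mem_compl_iff, mem_union, mem_iUnion, not_or, not_exists] at hx
  exact ⟨x, hx.1, fun p hp => hx.2 p hp⟩

theorem good_of_icc {G : Type u} [Group G] [Infinite G]
    (h : ∀ c : G, (Subgroup.centralizer {c}).FiniteIndex → c = 1) : Good G := by
  classical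
  intro P E hP hE hne
  by_contra hcon
  push Not at hcon
  let H : (G × G) ⊕ G → Subgroup G := Sum.elim (fun p => Subgroup.centralizer {p.1 * p.2})
    (fun _ => ⊥)
  let g : (G × G) ⊕ G → G := Sum.elim (fun p => p.1⁻¹) id
  obtain ⟨k, hk, hk2⟩ := Subgroup.exists_finiteIndex_of_leftCoset_cover (H := H) (g := g)
    (s := hP.toFinset.disjSum hE.toFinset) (by
      refine eq_univ_of_forall fun x => ?_
      simp only [mem_iUnion]
      by_cases hx : x ∈ E
      · exact ⟨Sum.inr x, by simpa using hx, by simp [g, H]⟩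
      · obtain ⟨p, hp, hxp⟩ := hcon x hx
        refine ⟨Sum.inl p, by simpa using hp, ?_⟩
        rw [mem_leftCoset_iff]
        simp only [g, H, Sum.elim_inl, inv_inv, SetLike.mem_coe,
          Subgroup.mem_centralizer_singleton_iff]
        rw [← hxp]; group)
  rcases k with p | x
  · exact hne p (by simpa using hk) (h _ hk2)
  · have h2 : (⊥ : Subgroup G).FiniteIndex := hk2
    have := h2.index_ne_zero
    simp at this

theorem fac_of_locFin {G : Type u} [Group G] [Countable G] [Infinite G]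
    (h : ∀ S : Set G, S.Finite → (Subgroup.closure S : Set G).Finite) : Fac G := by
  refine fac_of_step (fun A B => Inj A B ∧ ∃ H : Subgroup G, (H : Set G).Finite ∧ A * B = H)
    {1} {1} ⟨?_, ⊥, by simp, by simp⟩ (fun _ _ h => h.1) ?_
  · rintro a rfl b rfl a' rfl b' rfl -
    exact ⟨rfl, rfl⟩
  have big : ∀ (H : Subgroup G) (g : G), (H : Set G).Finite →
      ∃ H' : Subgroup G, (H' : Set G).Finite ∧ H < H' ∧ g ∈ H' := by
    intro H g hH
    obtain ⟨x, hx⟩ := hH.infinite_compl.nonempty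
    refine ⟨Subgroup.closure (insert g (insert x H)), h _ ((hH.insert x).insert g), ?_,
      Subgroup.subset_closure (mem_insert _ _)⟩
    refine lt_of_le_of_ne (fun y hy => Subgroup.subset_closure (Or.inr (Or.inr hy))) ?_
    intro h2
    exact hx (by rw [h2]; exact Subgroup.subset_closure (Or.inr (Or.inl rfl)))
  rintro A B g ⟨hinj, H, hH, hAB⟩
  obtain ⟨H1, hH1, h1, hg⟩ := big H g hH
  obtain ⟨H2, hH2, h2, -⟩ := big H1 g hH1
  obtain ⟨T, hT, hT1⟩ := Subgroup.exists_isComplement_left H 1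
  obtain ⟨T', hT', hT1'⟩ := Subgroup.exists_isComplement_right H1 1
  have hmem : ∀ a ∈ A, ∀ b ∈ B, a * b ∈ H := fun a ha b hb => by
    have := mul_mem_mul ha hb
    rwa [hAB] at this
  have e1 : (T ∩ H1) * A * B = H1 := by
    rw [mul_assoc, hAB]
    apply Subset.antisymm
    · rintro _ ⟨t, ht, x, hx, rfl⟩
      exact mul_mem ht.2 (h1.le hx)
    · intro y hy
      obtain ⟨⟨⟨t, ht⟩, ⟨x, hx⟩⟩, rfl⟩ := hT.2 y
      refine ⟨t, ⟨ht, ?_⟩, x, hx, rfl⟩
      simpa using mul_mem hy (inv_mem (h1.le hx))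
  have e2 : (T ∩ H1) * A * (B * (T' ∩ H2)) = H2 := by
    rw [← mul_assoc, e1]
    apply Subset.antisymm
    · rintro _ ⟨x, hx, t, ht, rfl⟩
      exact mul_mem (h2.le hx) ht.2
    · intro y hy
      obtain ⟨⟨⟨x, hx⟩, ⟨t, ht⟩⟩, rfl⟩ := hT'.2 y
      refine ⟨x, hx, t, ⟨ht, ?_⟩, rfl⟩
      simpa using mul_mem (inv_mem (h2.le hx)) hy
  refine ⟨(T ∩ H1) * A, B * (T' ∩ H2), ⟨?_, H2, hH2, e2⟩, ?_, ?_, ?_⟩
  · rintro _ ⟨t, ht, a, ha, rfl⟩ _ ⟨b, hb, s, hs, rfl⟩ _ ⟨t', ht', a', ha', rfl⟩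
      _ ⟨b', hb', s', hs', rfl⟩ h
    simp only at h ⊢
    have h3 := hT'.1
      (a₁ := (⟨t * (a * b), mul_mem ht.2 (h1.le (hmem a ha b hb))⟩, ⟨s, hs.1⟩))
      (a₂ := (⟨t' * (a' * b'), mul_mem ht'.2 (h1.le (hmem a' ha' b' hb'))⟩, ⟨s', hs'.1⟩))
      (by simpa [mul_assoc] using h)
    simp only [Prod.mk.injEq, Subtype.mk.injEq] at h3
    have h4 := hT.1 (a₁ := (⟨t, ht.1⟩, ⟨a * b, hmem a ha b hb⟩))
      (a₂ := (⟨t', ht'.1⟩, ⟨a' * b', hmem a' ha' b' hb'⟩)) h3.1
    simp only [Prod.mk.injEq, Subtype.mk.injEq] at h4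
    obtain ⟨h5, h6⟩ := hinj a ha b hb a' ha' b' hb' h4.2
    simp [h3.2, h4.1, h5, h6]
  · refine ⟨fun a ha => ⟨1, ⟨hT1, one_mem H1⟩, a, ha, by simp⟩, fun hsub => ?_⟩
    apply h1.2
    intro y hy
    have : y ∈ A * B := mul_subset_mul_right hsub (by rw [e1]; exact hy)
    rwa [hAB] at this
  · refine ⟨fun b hb => ⟨b, hb, 1, ⟨hT1', one_mem H2⟩, by simp⟩, fun hsub => ?_⟩
    apply h2.2
    intro y hy
    have : y ∈ (T ∩ H1) * A * B := mul_subset_mul_left hsub (by rw [e2]; exact hy)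
    rwa [e1] at this
  · rw [e2]
    exact h2.le hg

theorem finiteIndex_iff {G : Type u} [Group G] (c : G) :
    (Subgroup.centralizer {c}).FiniteIndex ↔ {x | ∃ g, g * c * g⁻¹ = x}.Finite := by
  rw [Subgroup.finiteIndex_iff_finite_quotient]
  let f : G ⧸ Subgroup.centralizer {c} → G := fun q => q.out * c * q.out⁻¹
  have hf : ∀ g : G, f g = g * c * g⁻¹ := by
    intro g
    obtain ⟨k, hk⟩ := QuotientGroup.mk_out_eq_mul (Subgroup.centralizer {c}) g
    have h2 := Subgroup.mem_centralizer_singleton_iff.1 k.2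
    simp only [f, hk]
    rw [mul_assoc g, h2]; group
  have hinj : Function.Injective f := by
    intro p q hpq
    induction p using QuotientGroup.induction_on with
    | H a =>
    induction q using QuotientGroup.induction_on with
    | H b =>
      rw [hf, hf] at hpq
      rw [QuotientGroup.eq, Subgroup.mem_centralizer_singleton_iff]
      calc a⁻¹ * b * c = a⁻¹ * (b * c * b⁻¹) * b := by group
        _ = c * (a⁻¹ * b) := by rw [← hpq]; group
  have hr : range f = {x | ∃ g, g * c * g⁻¹ = x} := by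
    ext x
    constructor
    · rintro ⟨q, rfl⟩
      exact ⟨_, rfl⟩
    · rintro ⟨g, rfl⟩
      exact ⟨g, hf g⟩
  rw [← hr, Set.finite_range_iff hinj]

/-- The FC-centre. -/
def fc (G : Type u) [Group G] : Subgroup G where
  carrier := {c | {x | ∃ g, g * c * g⁻¹ = x}.Finite}
  one_mem' := (finite_singleton 1).subset (by rintro _ ⟨g, rfl⟩; simp)
  mul_mem' := by
    intro a b ha hb
    refine (Set.Finite.mul ha hb).subset ?_
    rintro _ ⟨g, rfl⟩
    exact ⟨_, ⟨g, rfl⟩, _, ⟨g, rfl⟩, by simp only; group⟩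
  inv_mem' := by
    intro a ha
    refine (Set.Finite.inv ha).subset ?_
    rintro _ ⟨g, rfl⟩
    exact ⟨g, by group⟩

instance (G : Type u) [Group G] : (fc G).Normal := ⟨by
  intro n hn g
  refine Set.Finite.subset hn ?_
  rintro _ ⟨k, rfl⟩
  exact ⟨k * g, by group⟩⟩

theorem closure_finite {G : Type u} [Group G] (ht : ∀ g : G, IsOfFinOrder g) (S : Set G)
    (hS : S.Finite) (hfc : S ⊆ fc G) : (Subgroup.closure S : Set G).Finite := by
  have : Finite S := hS
  let Z : Subgroup G := ⨅ c : S, Subgroup.centralizer {c.1}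
  have hZ : Z.FiniteIndex := Subgroup.finiteIndex_iInf fun c => (finiteIndex_iff c.1).2 (hfc c.2)
  have hfg : Group.FG (Subgroup.closure S) := inferInstance
  let W := Z.subgroupOf (Subgroup.closure S)
  have hW : W.FiniteIndex := inferInstance
  have hWfg : Group.FG W := inferInstance
  have hcomm : ∀ z ∈ Z, ∀ y ∈ Subgroup.closure S, z * y = y * z := by
    intro z hz y hy
    have : Subgroup.closure S ≤ Subgroup.centralizer {z} := by
      rw [Subgroup.closure_le]
      intro c hc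
      have h2 := Subgroup.mem_centralizer_singleton_iff.1 (Subgroup.mem_iInf.1 hz ⟨c, hc⟩)
      exact Subgroup.mem_centralizer_singleton_iff.2 h2.symm
    exact (Subgroup.mem_centralizer_singleton_iff.1 (this hy)).symm
  let inst : CommGroup W :=
    { (inferInstance : Group W) with
      mul_comm := fun a b => Subtype.ext (Subtype.ext (hcomm _ a.2 _ b.1.2)) }
  have hWfin : Finite W := by
    refine CommGroup.finite_of_fg_isMulTorsion W fun w => ?_
    exact (Subgroup.subtype_injective W).isOfFinOrder_iff.1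
      ((Subgroup.subtype_injective (Subgroup.closure S)).isOfFinOrder_iff.1 (ht _))
  exact Finite.of_subgroup_quotient W

theorem main (G : Type u) [Group G] [Countable G] [Infinite G] : Fac G := by
  by_cases ht : ∀ g : G, IsOfFinOrder g
  swap
  · push Not at ht
    obtain ⟨g, hg⟩ := ht
    refine fac_of_injective (zpowersHom G g) ?_ (fac_of_good good_int)
    intro a b hab
    exact Multiplicative.toAdd.injective (injective_zpow_iff_not_isOfFinOrder.2 hg hab)
  rcases finite_or_infinite (fc G) with hfin | hinf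
  · have hq : Infinite (G ⧸ fc G) := by
      by_contra hcon
      have : Finite (G ⧸ fc G) := not_infinite_iff_finite.1 hcon
      have := Finite.of_subgroup_quotient (fc G)
      exact not_finite G
    have : Countable (G ⧸ fc G) := QuotientGroup.mk_surjective.countable
    refine fac_of_surjective (QuotientGroup.mk' (fc G)) (QuotientGroup.mk'_surjective _)
      (fac_of_good (good_of_icc fun c hc => ?_))
    induction c using QuotientGroup.induction_on with
    | H c =>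
      rw [QuotientGroup.eq_one_iff]
      have h1 := (finiteIndex_iff _).1 hc
      have hfin' : (fc G : Set G).Finite := hfin
      refine ((h1.image Quotient.out).mul hfin').subset ?_
      rintro _ ⟨g, rfl⟩
      obtain ⟨k, hk⟩ := QuotientGroup.mk_out_eq_mul (fc G) (g * c * g⁻¹)
      refine ⟨_, ⟨((g * c * g⁻¹ : G) : G ⧸ fc G), ⟨g, by simp⟩, rfl⟩, k⁻¹, inv_mem k.2, ?_⟩
      simp only
      rw [hk]; simp
  · refine fac_of_injective (fc G).subtype (Subgroup.subtype_injective _)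
      (fac_of_locFin fun S hS => ?_)
    have h1 := closure_finite ht ((fc G).subtype '' S) (hS.image _)
      (by rintro _ ⟨x, -, rfl⟩; exact x.2)
    rw [← MonoidHom.map_closure, Subgroup.coe_map] at h1
    exact h1.of_finite_image (Subgroup.subtype_injective _).injOn

end Pool.Agent.H.MP_b3a091_al
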